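import Pool.Agent.H625R2.CH.Time

/-!
# Polynomial consensus halving is `∃ℝ`-hard

The valuation functions of the hardness proof are rational combinations of the shifted Chebyshev
polynomials `T_d(1 - 2x)`. For the cuts `x_j = (1 - cos φ_j) / 2` the balance of `T_d(1 - 2x)` is a
power sum of the roots of two polynomials `U` and `W` whose roots lie on the unit circle; they are
reciprocal, `U = A + A#` and `W = A - A#`, and the balances `B_d` are the coefficients of the
logarithmic derivative of `U / W`. The vanishing of the first balances means that `A` is short, the
next balances are (up to fixed factors) the Taylor coefficients of `A# / A`. Finitely many linear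
conditions on them force `A = 1 + α` up to sign conventions with an `α` whose exponents form a
Sidon set, so that the Taylor coefficients contain all the coefficients of `α` and all their
pairwise products: an arbitrary system of equations `x = 1/8`, `x + y = z`, `x y = z` becomes a list
of linear conditions on the balances.
-/

namespace Pool.Agent.Results.MP_73cdf8_lc.ConsensusHalvingHard

open Pool.Agent.NPC Pool.Agent.NPC.ER Pool.Agent.NPC.ER.CH

/-- The polynomial version of Consensus Halving is `∃ℝ`-hard under polynomial-time many-one
reductions. -/
theorem result : ERHard (lang ConsensusHalving) := consensus_halving_hard

end Pool.Agent.Results.MP_73cdf8_lc.ConsensusHalvingHard
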